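import Mathlib
import Pool.Agent.H.MP_59b15d_al.h47e.Lan

set_option autoImplicit false

/-!
# Perfectness from the braid relations and the lantern relation
-/

namespace Pool.MP_59b15d_al.H95P

open Pool.MP_59b15d_al.H95E Pool.MP_59b15d_al.H93E Pool.MP_59b15d_al.H47E

variable {Γ K : Type*} [Group Γ] [CommGroup K] {g : ℕ} {A B C S : ℕ → Γ}

/-- Elements satisfying the braid relation have the same image in a commutative group. -/
theorem braid_ab (f : Γ →* K) {x y : Γ} (h : x * y * x = y * x * y) : f x = f y := by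
  have h1 := congrArg f h
  rw [map_mul, map_mul, map_mul, map_mul, mul_comm (f y) (f x)] at h1
  exact mul_left_cancel h1

theorem fa_ab (f : Γ →* K) (l : ℕ) : ∀ n, f (fa C S l n) = f (C l) := by
  intro n
  induction n with
  | zero => rfl
  | succ n ih =>
    rw [fa_succ, map_mul, map_mul, map_inv, ih, mul_comm (f (S (l + n + 1)))⁻¹,
      inv_mul_cancel_right]

/-- All the twists have the same image. -/
theorem twist_ab (L : Lk g A B C S) (f : Γ →* K) :
    (∀ i, i < g → f (B i) = f (B 0)) ∧ (∀ i, i < g → f (A i) = f (B 0)) ∧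
      ∀ i, i + 1 < g → f (C i) = f (B 0) := by
  have hB : ∀ i, i < g → f (B i) = f (B 0) := by
    intro i
    induction i with
    | zero => exact fun _ => rfl
    | succ i ih =>
      intro hi
      rw [← ih (by omega), braid_ab f (L.brC i hi), braid_ab f (L.brC' i hi)]
  refine ⟨hB, ?_, ?_⟩
  · intro i hi
    rw [braid_ab f (L.brA i), hB i hi]
  · intro i hi
    rw [← braid_ab f (L.brC i hi), hB i (by omega)]

/-- The twists are trivial in every commutative quotient. -/
theorem twist_ab_one (L : Lk g A B C S) (R : Ln g A B C S) (hg : 3 ≤ g) (f : Γ →* K) :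
    f (B 0) = 1 := by
  obtain ⟨hB, hA, hC⟩ := twist_ab L f
  obtain ⟨E, h0, h1, -, -⟩ := R.lan 0 (by omega)
  have h2 := congrArg f h0
  have e0 : f (E) = f (B 0) := braid_ab f h1
  have e1 : f (fa C S 0 (0 + 0 + 1)) = f (B 0) := by rw [fa_ab, hC 0 (by omega)]
  have e2 : f (fa C S 0 0) = f (B 0) := by rw [fa_ab, hC 0 (by omega)]
  have e3 : f (fa C S (0 + 0 + 1) 0) = f (B 0) := by rw [fa_ab, hC 1 (by omega)]
  have e4 : f (A 0) = f (B 0) := hA 0 (by omega)
  have e5 : f (A (0 + 0 + 1)) = f (B 0) := hA 1 (by omega)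
  have e6 : f (A (0 + 0 + 2)) = f (B 0) := hA 2 (by omega)
  have e7 : ∀ y x : Γ, f (y * x * y⁻¹) = f x := by
    intro y x
    rw [map_mul, map_mul, map_inv, mul_comm (f y), mul_inv_cancel_right]
  rw [map_mul, map_mul, e7, map_mul, map_mul, map_mul, e0, e1, e2, e3, e4, e5, e6] at h2
  have h3 : f (B 0) * f (B 0) * f (B 0) * f (B 0) = f (B 0) * f (B 0) * f (B 0) * 1 := by
    rw [mul_one]
    exact h2.symm
  exact mul_left_cancel h3

/-- **Perfectness.** -/
theorem perf (L : Lk g A B C S) (R : Ln g A B C S) (hg : 3 ≤ g)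
    (hgen : ∀ K : Subgroup Γ, (∀ i, i < g → A i ∈ K) → (∀ i, i < g → B i ∈ K) →
      (∀ i, i + 1 < g → C i ∈ K) → K = ⊤) (x : Γ) : x ∈ commutator Γ := by
  let f : Γ →* Abelianization Γ := Abelianization.of
  obtain ⟨hB, hA, hC⟩ := twist_ab L f
  have h1 := twist_ab_one L R hg f
  have h2 : f.ker = ⊤ := by
    refine hgen _ (fun i hi => ?_) (fun i hi => ?_) fun i hi => ?_
    · rw [MonoidHom.mem_ker, hA i hi, h1]
    · rw [MonoidHom.mem_ker, hB i hi, h1]
    · rw [MonoidHom.mem_ker, hC i hi, h1]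
  have h3 : x ∈ f.ker := by
    rw [h2]
    exact Subgroup.mem_top x
  rwa [Abelianization.ker_of] at h3

end Pool.MP_59b15d_al.H95P
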