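import Mathlib
import Pool.Agent.H.MP_59b15d_al.h95e.St4

set_option autoImplicit false

/-!
# The core in an abstract group

The same statements as in `h95e/St3`, with the stability of the class `Un` as a hypothesis: no
relation for the squares of the exchanges is used.
-/

namespace Pool.MP_59b15d_al.H95P

open Module Pool.MP_59b15d_al.H95E Pool.MP_59b15d_al.H93E Pool.MP_59b15d_al.H11D
  Pool.MP_59b15d_al.H47E Pool.MP_59b15d_al.H60E

variable {F V Γ : Type*} [Field F] [AddCommGroup V] [Module F V] [Group Γ]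
  {ρ : Γ →* Module.End F V} {g q m : ℕ} {A B C S : ℕ → Γ} {T : Γ}

section

variable [FiniteDimensional F V] (L : Lk g A B C S) (R : Ln g A B C S)
  (P : Bp g A B C S q T) (Aout : ∀ i, g ≤ i → A i = 1)
  (star : fa C S (q - 1) 1 ∈
      Subgroup.closure {C (q - 1), C q, A (q - 1), A q, A (q + 1), B q})
include L R P Aout star

/-- The first half of the step. -/
theorem half1' (hU : LemU ρ A B C S g) (h1 : m + 2 ≤ q) (h2 : q + m + 3 ≤ g)
    (hEV : ∀ W, Ex ρ A B C S g m W → W = ⊥)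
    (h : Zm ρ A T g q (m + 1)) {J : List ℕ} (G : Gd g q m J) (v : V) :
    (ρ (A q) - ρ T) (nn ρ (B q) (np ρ (J.map A) v)) = 0 := by
  refine EX_zero (X := (ρ (A q) - ρ T) * nn ρ (B q)) L hU P (xc_Db ρ _ _ _) Aout
    (by omega) (by omega) star (by omega) hEV ?_ G v
  intro J hJ
  have hF := hJ.free h1 h2
  refine fj_of L R P (by omega) hF ?_
  rintro x hx _ ⟨w, rfl⟩
  exact (bpair L R P (by omega) hJ hF h).sec2 ⟨w, rfl⟩ x hx

/-- **The step.** -/
theorem step' (hU : LemU ρ A B C S g) (hU' : LemU (du ρ) A B C S g) (h1 : m + 2 ≤ q)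
    (h2 : q + m + 3 ≤ g) (hEV : ∀ W, Ex ρ A B C S g m W → W = ⊥)
    (hEV' : ∀ W, Ex (du ρ) A B C S g m W → W = ⊥) (h : Zm ρ A T g q (m + 1)) :
    Zm ρ A T g q m := by
  have hAq : ∀ {n : ℕ} {J : List ℕ}, Gd g q n J → (∀ x ∈ J.map A, Commute (A q) x) ∧
      (∀ x ∈ J.map A, Commute T x) ∧ ∀ x ∈ J.map A, Commute (B q) x := fun G =>
    ⟨map_comm fun j _ => L.AA q j, map_comm fun j _ => P.TA j,
      map_comm fun j hj => (L.AB j q fun e => G.nq (e ▸ hj)).symm⟩
  have hdu : Zm (du ρ) A T g q (m + 1) := by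
    intro J hJ
    exact (du_D_np_iff ρ (map_comm2 L J) (P.TA q).symm.eq (hAq hJ).1 (hAq hJ).2.1).2 (h J hJ)
  intro J G v
  refine EX_zero (X := ρ (A q) - ρ T) L hU P (xc_D ρ _ _ _) Aout
    (by omega) (by omega) star (by omega) hEV ?_ G v
  intro J hJ
  have hF := hJ.free h1 h2
  refine fj_of L R P (by omega) hF ?_
  rintro x hx _ ⟨w, rfl⟩
  refine (bpair L R P (by omega) hJ hF h).sec2e ?_ ?_ ⟨w, rfl⟩ x hx
  · rintro _ ⟨u, rfl⟩
    exact half1' L R P Aout star hU h1 h2 hEV h hJ u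
  · refine sec2e_hyp ρ (map_comm2 L J) (P.TA q).symm.eq (hAq hJ).1 (hAq hJ).2.1 (hAq hJ).2.2 ?_
    rintro _ ⟨u, rfl⟩
    exact half1' L R P Aout star hU' h1 h2 hEV' hdu hJ u

/-- **The bounding pair.** -/
theorem rho_eq_T' {k : ℕ} (hU : LemU ρ A B C S g) (hU' : LemU (du ρ) A B C S g) (hq : q < g)
    (h1 : 0 < k → k + 1 ≤ q) (h2 : 0 < k → q + k + 2 ≤ g)
    (h : ∀ I : List ℕ, I.Nodup → (∀ i ∈ I, i < g) →
      I.length = k + 1 → ∀ v, np ρ (I.map A) v = 0)
    (hEV : ∀ m < k, ∀ W, Ex ρ A B C S g m W → W = ⊥)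
    (hEV' : ∀ m < k, ∀ W, Ex (du ρ) A B C S g m W → W = ⊥) : ρ (A q) = ρ T := by
  have key : ∀ n m, n + m = k → Zm ρ A T g q m := by
    intro n
    induction n with
    | zero =>
      rintro m h3
      rw [show m = k by omega]
      exact Zm.base L P hq h
    | succ n ih =>
      intro m h3
      have h4 := ih (m + 1) (by omega)
      have h5 := h1 (by omega)
      have h6 := h2 (by omega)
      exact step' L R P Aout star hU hU' (by omega) (by omega) (hEV m (by omega))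
        (hEV' m (by omega)) h4
  have h3 := key k 0 (by omega)
  apply LinearMap.ext
  intro v
  have h4 := h3 [] ⟨List.nodup_nil, List.not_mem_nil, fun j hj => absurd hj List.not_mem_nil, rfl⟩
    v
  rw [List.map_nil, np_nil] at h4
  rwa [LinearMap.sub_apply, sub_eq_zero] at h4

end

/-- **The core in an abstract group.** If the product of `k + 1` of the operators `A i - 1`
vanishes, `2 k + 4 ≤ g`, then two consecutive bounding pairs act trivially. -/
theorem core_abs [FiniteDimensional F V] {T : ℕ → Γ} (L : Lk g A B C S) (R : Ln g A B C S)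
    (P : ∀ q, 0 < q → q + 1 < g → Bp g A B C S q (T q)) (Aout : ∀ i, g ≤ i → A i = 1)
    (star : ∀ q, 0 < q → q + 1 < g → fa C S (q - 1) 1 ∈
      Subgroup.closure {C (q - 1), C q, A (q - 1), A q, A (q + 1), B q})
    (hU : LemU ρ A B C S g) (hU' : LemU (du ρ) A B C S g)
    (hEV : ∀ k ≤ g, np ρ ((List.range k).map A) ≠ 0 →
      ∀ m < k, ∀ W, Ex ρ A B C S g m W → W = ⊥)
    (hEV' : ∀ k ≤ g, np (du ρ) ((List.range k).map A) ≠ 0 →
      ∀ m < k, ∀ W, Ex (du ρ) A B C S g m W → W = ⊥)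
    {k : ℕ} (hk : 2 * k + 4 ≤ g) (h0 : np ρ ((List.range (k + 1)).map A) = 0) :
    ∃ q, 0 < q ∧ q + 2 < g ∧ ρ (A q) = ρ (T q) ∧ ρ (A (q + 1)) = ρ (T (q + 1)) := by
  classical
  have hex : ∃ k, np ρ ((List.range (k + 1)).map A) = 0 := ⟨k, h0⟩
  have h1 : Nat.find hex ≤ k := Nat.find_min' hex h0
  have h2 := Nat.find_spec hex
  have h3 : 0 < Nat.find hex → np ρ ((List.range (Nat.find hex)).map A) ≠ 0 := by
    intro h4
    have h5 := Nat.find_min hex (m := Nat.find hex - 1) (by omega)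
    rwa [Nat.sub_add_cancel h4] at h5
  generalize Nat.find hex = k' at h1 h2 h3
  have hc : ∀ x ∈ (List.range k').map A, ∀ y ∈ (List.range k').map A, Commute x y := by
    intro x hx y hy
    obtain ⟨i, -, rfl⟩ := List.mem_map.1 hx
    obtain ⟨j, -, rfl⟩ := List.mem_map.1 hy
    exact L.AA i j
  have key : ∀ q, 0 < q → q + 1 < g → k' + 1 ≤ q → q + k' + 2 ≤ g → ρ (A q) = ρ (T q) := by
    intro q hq0 hq1 h4 h5
    refine rho_eq_T' L R (P q hq0 hq1) Aout (star q hq0 hq1) hU hU' (by omega) (fun _ => h4)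
      (fun _ => h5) (np_all_range L (by omega) fun v => by rw [h2]; rfl)
      (fun m' hm' => hEV k' (by omega) (h3 (by omega)) m' hm')
      (fun m' hm' => hEV' k' (by omega) ?_ m' hm')
    rw [Ne, du_np_eq_zero_iff ρ hc]
    exact h3 (by omega)
  exact ⟨k' + 1, by omega, by omega, key _ (by omega) (by omega) (by omega) (by omega),
    key _ (by omega) (by omega) (by omega) (by omega)⟩

end Pool.MP_59b15d_al.H95P
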