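import Mathlib
import Pool.Agent.H.MP_59b15d_al.h46u.LemU2
import Pool.Agent.H.MP_59b15d_al.h60p.HbZ
import Pool.Agent.H.MP_59b15d_al.h95e.St2

set_option autoImplicit false

/-!
# Subspaces fixed by all front arcs, the squares of the exchanges known up to scalars
-/

namespace Pool.MP_59b15d_al.H95P

open Module Pool.MP_59b15d_al.H95E Pool.MP_59b15d_al.H93E Pool.MP_59b15d_al.H60E
  Pool.MP_59b15d_al.H46U Pool.MP_59b15d_al.H60P

variable {F V Γ : Type*} [Field F] [AddCommGroup V] [Module F V] [Group Γ]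
  {ρ : Γ →* Module.End F V} {g : ℕ} {A B C S : ℕ → Γ} {Z : Subgroup Γ} {U : Submodule F V}

/-- Elements acting by scalars stabilise every subspace. -/
theorem sb_of_scalar (hr : ∀ z ∈ Z, ∃ c : F, ∀ v, ρ z v = c • v) {z : Γ} (hz : z ∈ Z)
    (U : Submodule F V) : z ∈ sb ρ U := by
  have h1 : ∀ z ∈ Z, ∀ w ∈ U, ρ z w ∈ U := by
    intro z hz w hw
    obtain ⟨c, hc⟩ := hr z hz
    rw [hc]
    exact U.smul_mem c hw
  exact mem_sb_of_le (h1 z hz) (h1 z⁻¹ (inv_mem hz))

/-- The conjugate of the arc joining the two handles. -/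
theorem R7' (L : Lk g A B C S) (H : HbZ g A B C S Z) (i : ℕ) (hi : i + 1 < g) :
    (S i)⁻¹ * C i * S i = (A i * B i) ^ 3 * (A (i + 1) * B (i + 1)) ^ 3 * C i *
      ((A i * B i) ^ 3 * (A (i + 1) * B (i + 1)) ^ 3)⁻¹ := by
  have h1 := H.R7 i hi
  simp only [io] at h1
  have c := io_io L i (i + 1)
  have s1 : SemiconjBy (S i) ((A i * B i) ^ 3) ((A (i + 1) * B (i + 1)) ^ 3) := by
    have h2 := Pool.MP_59b15d_al.H47E.S_io L hi i
    rwa [Equiv.swap_apply_left] at h2
  have s2 : SemiconjBy (S i) ((A (i + 1) * B (i + 1)) ^ 3) ((A i * B i) ^ 3) := by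
    have h2 := Pool.MP_59b15d_al.H47E.S_io L hi (i + 1)
    rwa [Equiv.swap_apply_right] at h2
  obtain ⟨x, hx⟩ : ∃ x, x = (A i * B i) ^ 3 * (A (i + 1) * B (i + 1)) ^ 3 := ⟨_, rfl⟩
  have s3 : SemiconjBy (S i) x x := by
    rw [hx]
    have h2 := s1.mul_right s2
    rwa [← c.eq] at h2
  rw [← hx] at h1 ⊢
  have h3 : S i * (x * C i * x⁻¹) * (S i)⁻¹ = C i := by
    have e : S i * x = x * S i := s3.eq
    calc S i * (x * C i * x⁻¹) * (S i)⁻¹ = (S i * x) * C i * (S i * x)⁻¹ := by group
      _ = x * (S i * C i * (S i)⁻¹) * x⁻¹ := by rw [e]; group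
      _ = C i := by rw [h1]; group
  calc (S i)⁻¹ * C i * S i = (S i)⁻¹ * (S i * (x * C i * x⁻¹) * (S i)⁻¹) * S i := by rw [h3]
    _ = _ := by group

/-- The square of an exchange stabilises `U`. -/
theorem sq_sb (H : HbZ g A B C S Z) (hr : ∀ z ∈ Z, ∃ c : F, ∀ v, ρ z v = c • v)
    (hU : Un ρ A B C S g U) {i : ℕ} (hi : i + 1 < g) : S i * S i ∈ sb ρ U := by
  have h1 := hU.sI i (by omega)
  have h2 := hU.sI (i + 1) hi
  have hC : C i ∈ sb ρ U := fx_le_sb ρ U (hU.fF i 0 hi)
  have hA : ∀ j, A j ∈ sb ρ U := fun j => fx_le_sb ρ U (hU.fA j)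
  obtain ⟨z, hz, h3⟩ := H.R6 i hi
  rw [h3]
  simp only [io]
  refine mul_mem (mul_mem (mul_mem (mul_mem (mul_mem (mul_mem ?_ ?_) ?_) hC) ?_) ?_)
    (sb_of_scalar hr hz U)
  · exact mul_mem (mul_mem (mul_mem (mul_mem (inv_mem h1) (inv_mem h2)) hC) h2) h1
  · exact mul_mem (mul_mem (inv_mem h1) hC) h1
  · exact mul_mem (mul_mem (inv_mem h2) hC) h2
  · exact pow_mem (inv_mem (hA _)) 4
  · exact pow_mem (inv_mem (hA _)) 4

theorem mv_inv_eq' (hsq : ∀ i, i + 1 < g → S i * S i ∈ sb ρ U) {i : ℕ} (hi : i + 1 < g) :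
    mv ρ (S i)⁻¹ U = mv ρ (S i) U := by
  have h1 := mv_of_sb (g := (S i)⁻¹) (hsq i hi)
  rwa [inv_mul_cancel_left, eq_comm] at h1

/-- The translate by an exchange is of the same kind. -/
theorem un_mvZ (L : Lk g A B C S) (H : HbZ g A B C S Z)
    (hr : ∀ z ∈ Z, ∃ c : F, ∀ v, ρ z v = c • v) (hU : Un ρ A B C S g U) {i : ℕ}
    (hi : i + 1 < g) : Un ρ A B C S g (mv ρ (S i) U) := by
  have K := sf L
  have hsq := sq_sb H hr hU hi
  refine ⟨?_, ?_, ?_⟩
  · intro j
    by_cases h1 : j = i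
    · rw [h1]
      exact fx_mv_of_eq (hU.fA (i + 1)) (L.SA' i hi).symm
    · by_cases h2 : j = i + 1
      · rw [h2]
        exact fx_mv_of_eq (hU.fA i) (L.SA i hi).symm
      · exact fx_mv_of_comm (hU.fA j) (L.SAo i j h1 h2).symm
  · intro l n hn
    rcases Nat.lt_trichotomy i (l + n + 1) with h1 | h1 | h1
    · by_cases h2 : i + 1 = l + n + 1
      · -- `i + 1` is the end
        by_cases h3 : i = l
        · -- the arc joins the two handles
          subst h3
          obtain rfl : n = 0 := by omega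
          rw [mem_fx_mv, fa_zero, R7' L H i hi]
          exact fx_conj (hU.fF i 0 hi) (mul_mem (hU.sI i (by omega)) (hU.sI (i + 1) hi))
        · obtain ⟨k, rfl⟩ : ∃ k, n = k + 1 := ⟨n - 1, by omega⟩
          obtain rfl : i = l + k + 1 := by omega
          rw [mem_fx_mv, fa_succ]
          have e : (S (l + k + 1))⁻¹ * ((S (l + k + 1))⁻¹ * fa C S l k * S (l + k + 1)) *
              S (l + k + 1) = (S (l + k + 1) * S (l + k + 1))⁻¹ * fa C S l k *
                (S (l + k + 1) * S (l + k + 1)) := by group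
          rw [e]
          exact fx_conj' (hU.fF l k (by omega)) hsq
      · by_cases h3 : i = l
        · -- `i` is the beginning
          subst h3
          obtain ⟨k, rfl⟩ : ∃ k, n = k + 1 := ⟨n - 1, by omega⟩
          exact fx_mv_of_eq (hU.fF (i + 1) k (by omega)) (K.c3 i k (by omega)).symm
        · by_cases h4 : i + 1 = l
          · -- `i + 1` is the beginning
            subst h4
            have h5 := K.c3 i n (by omega)
            rw [mem_fx_mv]
            have e : (S i)⁻¹ * fa C S (i + 1) n * S i =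
                (S i * S i)⁻¹ * fa C S i (n + 1) * (S i * S i) := by
              have h6 : fa C S (i + 1) n = (S i)⁻¹ * (fa C S i (n + 1) * S i) := by
                rw [← h5]; group
              rw [h6]; group
            rw [e]
            exact fx_conj' (hU.fF i (n + 1) (by omega)) hsq
          · exact fx_mv_of_comm (hU.fF l n hn)
              (K.c1 i l n hi hn h3 h4 (by omega) h2).symm
    · -- `i` is the end
      subst h1
      rw [mem_fx_mv, ← fa_succ]
      exact hU.fF l (n + 1) (by omega)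
    · exact fx_mv_of_comm (hU.fF l n hn)
        (K.c1 i l n hi hn (by omega) (by omega) (by omega) (by omega)).symm
  · intro j hj
    by_cases h1 : j = i
    · rw [h1]
      refine sb_mv_of_eq (hU.sI (i + 1) hi) ?_
      have e : SemiconjBy (S i) (A (i + 1) * B (i + 1)) (A i * B i) :=
        (show SemiconjBy (S i) (A (i + 1)) (A i) from L.SA' i hi).mul_right (L.SB' i hi)
      exact (e.pow_right 3).eq.symm
    · by_cases h2 : j = i + 1
      · rw [h2]
        refine sb_mv_of_eq (hU.sI i (by omega)) ?_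
        have e : SemiconjBy (S i) (A i * B i) (A (i + 1) * B (i + 1)) :=
          (show SemiconjBy (S i) (A i) (A (i + 1)) from L.SA i hi).mul_right (L.SB i hi)
        exact (e.pow_right 3).eq.symm
      · exact sb_mv_of_comm (hU.sI j hj)
          (((L.SAo i j h1 h2).mul_right (L.SBo i j h1 h2)).pow_right 3).symm

/-- **LemU**, the squares of the exchanges known up to scalars. -/
theorem lemUz (L : Lk g A B C S) (H : HbZ g A B C S Z)
    (hr : ∀ z ∈ Z, ∃ c : F, ∀ v, ρ z v = c • v) : LemU ρ A B C S g := by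
  intro U hU i hi
  refine ⟨un_mvZ L H hr hU hi, ?_⟩
  rw [mv_inv_eq' (fun j hj => sq_sb H hr hU hj) hi]
  exact un_mvZ L H hr hU hi

end Pool.MP_59b15d_al.H95P
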