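import Mathlib
import Pool.Agent.H.MP_59b15d_al.h95p.CoreA
import Pool.Agent.H.MP_59b15d_al.h95p.LemUz
import Pool.Agent.H.MP_59b15d_al.h60p.Inst

set_option autoImplicit false

/-!
# The core in a central extension
-/

namespace Pool.MP_59b15d_al.H95P

open Module Pool.MP_59b15d_al.H95E Pool.MP_59b15d_al.H93E Pool.MP_59b15d_al.H11D
  Pool.MP_59b15d_al.H47E Pool.MP_59b15d_al.H60E Pool.MP_59b15d_al.H60P

variable {F V Γ : Type*} [Field F] [AddCommGroup V] [Module F V] [Group Γ]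
  {ρ : Γ →* Module.End F V} {A B C S XA XB : ℕ → Γ} {Z : Subgroup Γ}

/-- Central elements act by scalars on the dual, too. -/
theorem du_scalar (hr : ∀ z ∈ Z, ∃ c : F, ∀ v, ρ z v = c • v) :
    ∀ z ∈ Z, ∃ c : F, ∀ f, du ρ z f = c • f := by
  intro z hz
  obtain ⟨c, hc⟩ := hr z⁻¹ (inv_mem hz)
  refine ⟨c, fun f => ?_⟩
  ext v
  rw [du_apply, hc, map_smul, LinearMap.smul_apply]

/-- Exact families vanish. -/
theorem evZ {n : ℕ} (L : Lk (n + 1) A B C S) (H : HbZ (n + 1) A B C S Z)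
    (P : PuZ n A B C S XA XB Z)
    (hZ : ∀ z ∈ Z, ∀ x : Γ, Commute z x) (hr : ∀ z ∈ Z, ∃ c : F, ∀ v, ρ z v = c • v)
    (hgen : ∀ K : Subgroup Γ, Z ≤ K → (∀ i, i < n + 1 → A i ∈ K) → (∀ i, i < n + 1 → B i ∈ K) →
      (∀ i, i + 1 < n + 1 → C i ∈ K) → K = ⊤)
    (hirr : ∀ U : Submodule F V, (∀ g, ∀ u ∈ U, ρ g u ∈ U) → U = ⊥ ∨ U = ⊤) :
    ∀ k ≤ n + 1, np ρ ((List.range k).map A) ≠ 0 →
      ∀ m < k, ∀ W, Ex ρ A B C S (n + 1) m W → W = ⊥ := by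
  intro k hk hne m hm W E
  refine EVz L H P hZ hr hgen hirr m (List.range (m + 1)) List.nodup_range (fun i hi => ?_)
    List.length_range (fun h0 => hne ?_) W E
  · rw [List.mem_range] at hi
    omega
  · obtain ⟨d, rfl⟩ := Nat.exists_eq_add_of_le (show m + 1 ≤ k by omega)
    rw [List.range_add, List.map_append]
    ext v
    rw [np_append, h0]
    rfl

/-- **The core in a central extension.** Two consecutive bounding pairs act trivially on an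
irreducible space on which the product of `k + 1` of the operators `A i - 1` vanishes,
`2 k + 4 ≤ g`. -/
theorem coreZ [FiniteDimensional F V] {g : ℕ} {T : ℕ → Γ} (L : Lk g A B C S)
    (H : HbZ g A B C S Z) (R : Ln g A B C S)
    (P : ∀ q, 0 < q → q + 1 < g → Bp g A B C S q (T q)) (Aout : ∀ i, g ≤ i → A i = 1)
    (star : ∀ q, 0 < q → q + 1 < g → fa C S (q - 1) 1 ∈
      Subgroup.closure {C (q - 1), C q, A (q - 1), A q, A (q + 1), B q})
    (Q : ∀ n, g = n + 1 → PuZ n A B C S XA XB Z)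
    (hZ : ∀ z ∈ Z, ∀ x : Γ, Commute z x) (hr : ∀ z ∈ Z, ∃ c : F, ∀ v, ρ z v = c • v)
    (hgen : ∀ K : Subgroup Γ, Z ≤ K → (∀ i, i < g → A i ∈ K) → (∀ i, i < g → B i ∈ K) →
      (∀ i, i + 1 < g → C i ∈ K) → K = ⊤)
    (hirr : ∀ U : Submodule F V, (∀ g, ∀ u ∈ U, ρ g u ∈ U) → U = ⊥ ∨ U = ⊤)
    {k : ℕ} (hk : 2 * k + 4 ≤ g) (h0 : np ρ ((List.range (k + 1)).map A) = 0) :
    ∃ q, 0 < q ∧ q + 2 < g ∧ ρ (A q) = ρ (T q) ∧ ρ (A (q + 1)) = ρ (T (q + 1)) := by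
  obtain ⟨n, rfl⟩ : ∃ n, g = n + 1 := ⟨g - 1, by omega⟩
  exact core_abs L R P Aout star (lemUz L H hr) (lemUz L H (du_scalar hr))
    (evZ L H (Q n rfl) hZ hr hgen hirr)
    (evZ L H (Q n rfl) hZ (du_scalar hr) hgen (du_irr hirr)) hk h0

end Pool.MP_59b15d_al.H95P
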